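import Mathlib
import Pool.Agent.H7.Nest
import Pool.Agent.H7.Nest2

set_option autoImplicit false

namespace Pool.Agent.Results.MP_123300_co.NotBounded

open Metric

/-- A real tree: geodesic, with the four-point condition. Every embedded tree with its path
metric is a compact real tree. -/
def IsRealTree (T : Type) [MetricSpace T] : Prop :=
  (∀ (p q : T) (s : ℝ), 0 ≤ s → s ≤ dist p q → ∃ z, dist p z = s ∧ dist z q = dist p q - s) ∧
  ∀ a b c d : T, dist a b + dist c d ≤ max (dist a c + dist b d) (dist a d + dist b c)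

/-- `c, r, t` is a NeST representation of `G` in the host `T`: neighborhood subtrees
`T(c v, r v)` of diameter `2 r v`, positive tolerances, and the NeST adjacency rule. -/
def Rep {V T : Type} [MetricSpace T] (G : SimpleGraph V) (c : V → T) (r t : V → ℝ) : Prop :=
  (∀ v, 0 < r v ∧ 0 < t v ∧ diam (closedBall (c v) (r v)) = 2 * r v) ∧
    ∀ x y, x ≠ y → (G.Adj x y ↔
      (closedBall (c x) (r x) ∩ closedBall (c y) (r y)).Nonempty ∧
      min (t x) (t y) ≤ diam (closedBall (c x) (r x) ∩ closedBall (c y) (r y)))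

theorem diam_eq {T : Type} [MetricSpace T] (e p q : T) (s : ℝ) (hp : dist p e ≤ s)
    (hq : dist q e ≤ s) (h : dist p q = 2 * s) : diam (closedBall e s) = 2 * s :=
  le_antisymm (diam_closedBall (dist_nonneg.trans hp))
    (h ▸ dist_le_diam_of_mem isBounded_closedBall hp hq)

theorem seg (M : ℝ) : IsRealTree (Set.Icc (0 : ℝ) M) := by
  constructor
  · rintro ⟨p, p0, p1⟩ ⟨q, q0, q1⟩ s h0 h1
    simp only [Subtype.dist_eq, Real.dist_eq] at h1 ⊢
    rcases le_total p q with h | h
    · rw [abs_sub_comm, abs_of_nonneg (by linarith)] at h1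
      refine ⟨⟨p + s, by linarith, by linarith⟩, ?_, ?_⟩
      · simp [abs_of_nonneg h0]
      · dsimp only
        rw [abs_of_nonpos (by linarith), abs_of_nonpos (by linarith)]
        ring
    · rw [abs_of_nonneg (by linarith)] at h1
      refine ⟨⟨p - s, by linarith, by linarith⟩, ?_, ?_⟩
      · simp [abs_of_nonneg h0]
      · dsimp only
        rw [abs_of_nonneg (by linarith), abs_of_nonneg (by linarith)]
        ring
  · rintro ⟨a, -⟩ ⟨b, -⟩ ⟨c, -⟩ ⟨d, -⟩
    simp only [Subtype.dist_eq, Real.dist_eq, le_max_iff]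
    have := le_abs_self (a - c); have := neg_abs_le (a - c)
    have := le_abs_self (b - d); have := neg_abs_le (b - d)
    have := le_abs_self (a - d); have := neg_abs_le (a - d)
    have := le_abs_self (b - c); have := neg_abs_le (b - c)
    rcases abs_cases (a - b) with h | h <;> rcases abs_cases (c - d) with k | k
    · right; linarith [h.1, k.1]
    · left; linarith [h.1, k.1]
    · left; linarith [h.1, k.1]
    · right; linarith [h.1, k.1]

open Pool.Agent.H7.Nest Pool.Agent.H7.Nest2 in
theorem result : ∃ (V : Type) (_ : Fintype V) (G : SimpleGraph V),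
    (∃ M : ℝ, 0 < M ∧ ∃ (c : V → Set.Icc (0 : ℝ) M) (r t : V → ℝ), Rep G c r t) ∧
    ∀ (T : Type) [MetricSpace T] [CompactSpace T], IsRealTree T →
      ∀ (c : V → T) (r t : V → ℝ), Rep G c r t → ¬ ∀ v, t v ≤ 2 * r v := by
  obtain ⟨N, hN⟩ := core
  let G : SimpleGraph (Vx N) :=
    { Adj := fun i j => i ≠ j ∧ min (tl N i) (tl N j) ≤
        min (rb N i) (rb N j) - max (la N i) (la N j)
      symm := ⟨fun i j h => ⟨h.1.symm, by
        rw [min_comm, min_comm (rb N j), max_comm]
        exact h.2⟩⟩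
      loopless := ⟨fun i h => h.1 rfl⟩ }
  refine ⟨Vx N, inferInstance, G, ?_, ?_⟩
  · obtain ⟨M, hM⟩ := Finite.exists_le (rb N)
    have l0 : ∀ v, 0 ≤ la N v := by
      rintro (v | v) <;> simp only [la] <;> positivity
    have l1 := la_lt N
    have l2 : ∀ v, rb N v ≤ max M 1 := fun v => le_max_of_le_left (hM v)
    let c : Vx N → Set.Icc (0 : ℝ) (max M 1) := fun v =>
      ⟨(la N v + rb N v) / 2, by linarith [l0 v, l1 v], by linarith [l1 v, l2 v]⟩
    let p : Vx N → Set.Icc (0 : ℝ) (max M 1) := fun v =>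
      ⟨la N v, l0 v, by linarith [l1 v, l2 v]⟩
    let q : Vx N → Set.Icc (0 : ℝ) (max M 1) := fun v =>
      ⟨rb N v, by linarith [l0 v, l1 v], l2 v⟩
    have hp : ∀ v, dist (p v) (c v) ≤ (rb N v - la N v) / 2 := fun v => by
      rw [Subtype.dist_eq, Real.dist_eq, abs_le]
      simp only [p, q, c]
      constructor <;> linarith [l1 v]
    have hq : ∀ v, dist (q v) (c v) ≤ (rb N v - la N v) / 2 := fun v => by
      rw [Subtype.dist_eq, Real.dist_eq, abs_le]
      simp only [p, q, c]
      constructor <;> linarith [l1 v]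
    have hpq : ∀ v, dist (p v) (q v) = 2 * ((rb N v - la N v) / 2) := fun v => by
      rw [Subtype.dist_eq, Real.dist_eq, abs_of_nonpos (by linarith [l1 v])]
      ring
    refine ⟨max M 1, lt_max_of_lt_right one_pos, c, fun v => (rb N v - la N v) / 2, tl N,
      fun v => ⟨by linarith [l1 v], tl_pos N v, diam_eq _ _ _ _ (hp v) (hq v) (hpq v)⟩,
      fun x y hxy => ?_⟩
    rw [diam_iff (seg _).1 (seg _).2 _ _ _ _ _ _ _ _ _ (lt_min (tl_pos N x) (tl_pos N y))
      (hp x) (hq x) (hpq x) (hp y) (hq y) (hpq y)]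
    refine (and_iff_right hxy).trans ?_
    rw [Subtype.dist_eq, Real.dist_eq, le_sub_iff_add_le, le_min_iff, ← max_add_add_left,
      max_le_iff, max_le_iff, le_min_iff, le_min_iff]
    simp only [c]
    have a1 := le_abs_self ((la N x + rb N x) / 2 - (la N y + rb N y) / 2)
    have a2 := neg_abs_le ((la N x + rb N x) / 2 - (la N y + rb N y) / 2)
    constructor
    · rintro ⟨⟨b1, b2⟩, b3, b4⟩
      refine ⟨⟨by linarith, by linarith⟩, ?_⟩
      rcases abs_cases ((la N x + rb N x) / 2 - (la N y + rb N y) / 2) with h | h <;>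
        linarith [h.1]
    · rintro ⟨⟨b1, b2⟩, b3⟩
      refine ⟨⟨?_, ?_⟩, ?_, ?_⟩ <;> linarith
  · rintro T _ _ ⟨geo, four⟩ c r t ⟨hp, h⟩ hb
    choose e p q s h1 h2 h3 h4 using fun v => recenter geo four (c v) (r v) (hp v).1.le
    have hs : ∀ v, t v ≤ 2 * s v := fun v => by
      rw [← diam_eq _ _ _ _ (h2 v) (h3 v) (h4 v), ← h1, (hp v).2.2]
      exact hb v
    rcases isEmpty_or_nonempty (Vx N) with hV | ⟨⟨o⟩⟩
    · exact hN (fun _ _ => 0) r r r (fun _ _ => rfl) (fun x => isEmptyElim x)
        (fun x => isEmptyElim x)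
    refine hN (fun x y => dist (e x) (e y)) (fun x => dist (e x) (e o)) s t
      (fun x y => dist_comm _ _) (fun x y z => ?_) (fun x y hxy => ?_)
    · have := four (e x) (e z) (e y) (e o)
      rwa [dist_comm (e z) (e y), add_comm (dist (e x) (e o))] at this
    · refine (and_iff_right hxy).symm.trans ((h x y hxy).trans ?_)
      rw [h1, h1, diam_iff geo four _ _ _ _ _ _ _ _ _ (lt_min (hp x).2.1 (hp y).2.1) (h2 x)
        (h3 x) (h4 x) (h2 y) (h3 y) (h4 y), le_min_iff]
      exact and_iff_right (min_le_min (hs x) (hs y))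

end Pool.Agent.Results.MP_123300_co.NotBounded
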